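import Pool.Agent.H927.QP.St

/-!
# Expansion of the action of `y_l = 1 + 2 x_l` (part `exp` of the project of helper927)
-/

set_option autoImplicit false

open scoped TensorProduct commutatorElement

noncomputable section

namespace Pool.Agent.H927.QP.Part_exp

open Pool.Agent.H297.QL (Gr gam cl gbr comp hc LV inc lift)

attribute [local instance 100] LieRing.ofAssociativeRing

/-- `hat` reduces to the identity modulo `T`. -/
lemma hat_zero (k l : Fin 3) (a : FA K) : (hat K k l a).coeff 0 = a := by
  refine indA K (p := fun a => (hat K k l a).coeff 0 = a) ?_ ?_ ?_ ?_ a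
  · intro r
    rw [AlgHom.commutes, Polynomial.algebraMap_apply, Polynomial.coeff_C_zero]
  · intro c
    rw [hat, liftA_x]
    by_cases h : c = k
    · subst h
      simp [Polynomial.mul_coeff_zero]
    · simp [h]
  · intro a b ha hb
    rw [map_add, Polynomial.coeff_add, ha, hb]
  · intro a b ha hb
    rw [map_mul, Polynomial.mul_coeff_zero, ha, hb]

lemma del_mul (k l : Fin 3) (a b : FA K) :
    del K k l (a * b) = a * del K k l b + del K k l a * b := by
  change (hat K k l (a * b)).coeff 1 = a * (hat K k l b).coeff 1 + (hat K k l a).coeff 1 * b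
  rw [map_mul, Polynomial.mul_coeff_one, hat_zero, hat_zero]

lemma sec_mul (k l : Fin 3) (a b : FA K) :
    sec K k l (a * b) = a * sec K k l b + del K k l a * del K k l b + sec K k l a * b := by
  change (hat K k l (a * b)).coeff 2 = a * (hat K k l b).coeff 2 +
    (hat K k l a).coeff 1 * (hat K k l b).coeff 1 + (hat K k l a).coeff 2 * b
  rw [map_mul, Polynomial.coeff_mul]
  have h : Finset.HasAntidiagonal.antidiagonal 2 =
      ({(0, 2), (1, 1), (2, 0)} : Finset (ℕ × ℕ)) := by decide
  rw [h]
  simp [hat_zero, add_assoc]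

lemma del_alg (k l : Fin 3) (r : K) : del K k l (algebraMap K (FA K) r) = 0 := by
  change (hat K k l (algebraMap K (FA K) r)).coeff 1 = 0
  rw [AlgHom.commutes, Polynomial.algebraMap_apply, Polynomial.coeff_C]
  simp

lemma sec_alg (k l : Fin 3) (r : K) : sec K k l (algebraMap K (FA K) r) = 0 := by
  change (hat K k l (algebraMap K (FA K) r)).coeff 2 = 0
  rw [AlgHom.commutes, Polynomial.algebraMap_apply, Polynomial.coeff_C]
  simp

lemma del_x_ne (k l c : Fin 3) (h : c ≠ k) : del K k l (x K c) = 0 := by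
  change (hat K k l (x K c)).coeff 1 = 0
  rw [hat, liftA_x, if_neg h, Polynomial.coeff_C]
  simp

lemma sec_x_ne (k l c : Fin 3) (h : c ≠ k) : sec K k l (x K c) = 0 := by
  change (hat K k l (x K c)).coeff 2 = 0
  rw [hat, liftA_x, if_neg h, Polynomial.coeff_C]
  simp

lemma del_x (k l : Fin 3) : del K k l (x K k) = x K l * x K k - x K k * x K l := by
  change (hat K k l (x K k)).coeff 1 = _
  rw [hat, liftA_x, if_pos rfl]
  rw [Polynomial.coeff_sub, Polynomial.coeff_add, Polynomial.coeff_C, Polynomial.coeff_X_pow_mul',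
    show (1 : ℕ) = 0 + 1 from rfl, Polynomial.coeff_X_mul, Polynomial.coeff_C]
  simp

lemma sec_x (k l : Fin 3) :
    sec K k l (x K k) = - ((x K l * x K k - x K k * x K l) * x K l) := by
  change (hat K k l (x K k)).coeff 2 = _
  rw [hat, liftA_x, if_pos rfl]
  rw [Polynomial.coeff_sub, Polynomial.coeff_add, Polynomial.coeff_C, Polynomial.coeff_X_pow_mul',
    show (2 : ℕ) = 1 + 1 from rfl, Polynomial.coeff_X_mul, Polynomial.coeff_C]
  simp

/-- the expansion of `alpha` -/
lemma alpha_exp (k l : Fin 3) (a : FA K) : ∃ r : FA K,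
    alpha k (y l) a = a + 2 * del K k l a + 4 * sec K k l a + 8 * r := by
  refine indA K (p := fun a => ∃ r : FA K,
    alpha k (y l) a = a + 2 * del K k l a + 4 * sec K k l a + 8 * r) ?_ ?_ ?_ ?_ a
  · intro r
    refine ⟨0, ?_⟩
    rw [AlgHom.commutes, del_alg, sec_alg]
    simp
  · intro c
    by_cases h : c = k
    · subst h
      have h1 : (1 + 2 * x K l) * yi l = 1 := y_mul_yi l
      refine ⟨(x K l * x K c - x K c * x K l) * x K l * x K l * yi l, ?_⟩
      rw [alpha, liftA_x, if_pos rfl, del_x, sec_x]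
      change (1 + 2 * x K l) * x K c * yi l = _
      have h2 : yi l = 1 - 2 * (x K l * yi l) := by
        rw [← h1]; noncomm_ring
      have h3 : (1 + 2 * x K l) * x K c * yi l = x K c +
          2 * ((x K l * x K c - x K c * x K l) * yi l) := by
        have h4 : x K c = x K c * ((1 + 2 * x K l) * yi l) := by rw [h1, mul_one]
        calc (1 + 2 * x K l) * x K c * yi l
            = x K c * ((1 + 2 * x K l) * yi l) +
              2 * ((x K l * x K c - x K c * x K l) * yi l) := by noncomm_ring
          _ = _ := by rw [← h4]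
      rw [h3]
      generalize (x K l * x K c - x K c * x K l) = C at *
      have h5 : C * yi l = C - 2 * (C * x K l) + 4 * (C * x K l * x K l * yi l) := by
        calc C * yi l = C * (1 - 2 * (x K l * yi l)) := by rw [← h2]
          _ = C - 2 * (C * x K l * yi l) := by noncomm_ring
          _ = C - 2 * (C * x K l * (1 - 2 * (x K l * yi l))) := by rw [← h2]
          _ = _ := by noncomm_ring
      rw [h5]
      noncomm_ring
    · refine ⟨0, ?_⟩
      rw [alpha, liftA_x, if_neg h, del_x_ne k l c h, sec_x_ne k l c h]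
      simp
  · rintro a b ⟨r, hr⟩ ⟨s, hs⟩
    refine ⟨r + s, ?_⟩
    rw [map_add, map_add, map_add, hr, hs]
    noncomm_ring
  · rintro a b ⟨r, hr⟩ ⟨s, hs⟩
    rw [map_mul, del_mul, sec_mul, hr, hs]
    generalize del K k l a = a1
    generalize del K k l b = b1
    generalize sec K k l a = a2
    generalize sec K k l b = b2
    refine ⟨r * b + a * s + a1 * b2 + a2 * b1 + 2 * (a1 * s + r * b1 + a2 * b2) +
      4 * (a2 * s + r * b2) + 8 * (r * s), ?_⟩
    noncomm_ring

/-- see above -/
theorem expn : S_exp := by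
  intro k l _ m
  choose r hr using alpha_exp k l
  refine ⟨fun j => r (m j) + bco k j • ((aco k l 0 • (sec K k l (m 0) + 2 * r (m 0)) +
    aco k l 1 • (sec K k l (m 1) + 2 * r (m 1))) * x K l), ?_⟩
  funext j
  have h2 : ∀ a : FA K, (2 : K) • a = (2 : ℤ) • a := fun a => by
    rw [Algebra.smul_def, map_ofNat, zsmul_eq_mul]; norm_num
  have h4 : ∀ a : FA K, (4 : K) • a = (4 : ℤ) • a := fun a => by
    rw [Algebra.smul_def, map_ofNat, zsmul_eq_mul]; norm_num
  have h8 : ∀ a : FA K, (8 : K) • a = (8 : ℤ) • a := fun a => by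
    rw [Algebra.smul_def, map_ofNat, zsmul_eq_mul]; norm_num
  have h2' : ∀ a : FA K, 2 * a = (2 : ℤ) • a := fun a => by
    rw [zsmul_eq_mul]; norm_num
  have h4' : ∀ a : FA K, 4 * a = (4 : ℤ) • a := fun a => by
    rw [zsmul_eq_mul]; norm_num
  have h8' : ∀ a : FA K, 8 * a = (8 : ℤ) • a := fun a => by
    rw [zsmul_eq_mul]; norm_num
  change alpha k (y l) (m j) +
    bco k j • ((aco k l 0 • alpha k (y l) (m 0) + aco k l 1 • alpha k (y l) (m 1)) *
      ((1 + 2 * x K l : FA K) - 1)) =
    m j + (2 : K) • (del K k l (m j) + bco k j • ((aco k l 0 • m 0 + aco k l 1 • m 1) * x K l)) +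
    (4 : K) • (sec K k l (m j) +
      bco k j • ((aco k l 0 • del K k l (m 0) + aco k l 1 • del K k l (m 1)) * x K l)) +
    (8 : K) • (r (m j) + bco k j • ((aco k l 0 • (sec K k l (m 0) + 2 * r (m 0)) +
    aco k l 1 • (sec K k l (m 1) + 2 * r (m 1))) * x K l))
  rw [add_sub_cancel_left, hr, hr, hr]
  simp only [h2, h4, h8, h2', h4', h8', add_mul, smul_mul_assoc, mul_smul_comm]
  generalize aco k l 0 = a0
  generalize aco k l 1 = a1
  generalize bco k j = b
  module

end Pool.Agent.H927.QP.Part_exp
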